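import Pool.Agent.Helper55.Ord.Main

/-!
# Pro-orderable groups do not generate the class of orderable groups

We exhibit one first-order sentence in the language of groups which holds in every pro-orderable
group but fails in an orderable (soluble, 3-step) group.
-/

universe u v

namespace Pool.Agent.Results.MP_6e5331_al.NegativeAnswer

open FirstOrder Pool.Agent.Helper55.Ord

/-- **Main theorem.** There is a first-order sentence in the language of groups which holds in
every pro-orderable group but fails in some orderable group. -/
theorem result :
    ∃ φ : groupLang.Sentence,
      (∀ (H : Type v) [Group H], ProOrderable H → H ⊨ φ) ∧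
      ∃ (G : Type u) (_ : Group G), Orderable G ∧ ¬ (G ⊨ φ) := by
  refine ⟨theta.not, ?_, ULift.{u} GG, inferInstance, orderable_ulift orderable_GG, ?_⟩
  · intro H _ hH
    rw [Language.Sentence.realize_not, realize_theta]
    exact not_Theta_of_proOrderable H hH
  · rw [Language.Sentence.realize_not, realize_theta, not_not]
    exact Theta_ulift Theta_GG

end Pool.Agent.Results.MP_6e5331_al.NegativeAnswer
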